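import Pool.Agent.Helper3.MX.Stkq
import Pool.Agent.Helper55.INV.Trn

/-! ST FOR THE TRUNCATIONS, deep visible labels: the system is in an ordinary class, the resolution is the cell of level
`1` of the point; at every level `b` the K-hull of the window `0` has at most the volume of the entropy of the point of
level `b` over any K-label. The degree does not depend on `b`. -/

set_option autoImplicit false

namespace Pool.Agent.Helper3.NJ

open Finset Filter Topology Matrix Pool.Agent.Helper69.RK Pool.Agent.Helper31.EC Pool.Agent.Helper31.EC.Sp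
open Pool.Agent.Helper40.EL Pool.Agent.Helper89.LX Pool.Agent.Helper84.MT
open Pool.Agent.Helper29.MX
open Pool.Agent.Helper36.AM (HQ volO STO DGRu STu MCl)
open Pool.Agent.Helper3.LF (Mon)
open Pool.Agent.Helper3.MX
open Pool.Agent.Helper87.NSL (cndR)
open Pool.Agent.Helper52.SL (untF tnF untL tnL nul_trn cellv_chg untF_leak tnF_leak)

noncomputable section

variable {S T : Sp} {M N D g v : ℕ} {E : ℕ → ℕ} {ι κ : Type}

/-- the space over a label of the truncated space, and the truncated space over the label -/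
def pjt {b : ℝ} {h0 : 0 < b} (l : Lab (S.chg S.tr b h0)) :
    Pj (l.ovr 1 one_pos) (((untL l).ovr 1 one_pos).chg ((untL l).ovr 1 one_pos).tr b h0) where
  π := fun k => id
  law := fun k => push_id _
  hZ := fun k ω ω' _ _ => ⟨fun h => ⟨trivial, h⟩, fun h => h.2⟩
  hn := fun k => by
    show 1 * (l k).T.n = b * (1 * (S.F k).n)
    have h1 : (l k).T.n = b * (S.F k).n := (l k).hn
    rw [h1, one_mul, one_mul]

/-- labels of the window `0` of the truncation -/
theorem nul_win_trn {s : MSys S M E ι} {b : ℝ} {h0 : 0 < b} {h1 : b ≤ 1} {l : Lab (S.chg S.tr b h0)} {i : ι}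
    (h : Nul (S.chg S.tr b h0) fun k => (l k).leak (((s.trn b h0 h1).lf i).win 0 k)) :
    Nul S fun k => (untL l k).leak ((s.lf i).win 0 k) := by
  have h2 := nul_trn.mp h
  have e1 : (fun k => (untL l k).leak ((s.lf i).win 0 k)) =
      fun k => (l k).leak (((s.trn b h0 h1).lf i).win 0 k) := by
    funext k
    have e2 := s.trn_leak (h1 := h1) 0 l (some i) k
    have e3 : s.cndt b 0 (some i) = (s.lf i).win 0 := by
      show (s.lf i).win (b * 0) = _
      rw [mul_zero]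
    rw [e3] at e2
    exact e2.symm
  rw [e1]
  exact h2

/-- THE CHANGE OF THE BASE AND THE TRUNCATION -/
theorem ovl_trn_mem {A : MCl N} (hA : OkA N A) {r : ℕ} {s : MSys S N (lin g) (Fin r)} (hs : A S g r s) {b : ℝ}
    {h0 : 0 < b} {h1 : b ≤ 1} {l : Lab (S.chg S.tr b h0)} (hd : s.DMc 0 (untL l))
    (hl : ∀ i, Nul (S.chg S.tr b h0) fun k => (l k).leak (((s.trn b h0 h1).lf i).win 0 k)) :
    A (l.ovr 1 one_pos) g r (Pool.Agent.Helper24.PR.ovl (s.trn b h0 h1) l hl) := by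
  have h2 := hA.bas S g r s hs (untL l) hd
  have h3 := hA.trn _ _ _ _ h2 b h0 h1
  exact hA.add _ _ _ _ h3 (l.ovr 1 one_pos) (pjt l) g r (fun _ => le_rfl)
    (fun i => (Pool.Agent.Helper24.PR.ovl (s.trn b h0 h1) l hl).lf i) id fun i => rfl

/-- labels of the truncation without any leak at the cells of level `1` are ordinary labels of the system -/
theorem dmc_untL {s : MSys S M E ι} {b : ℝ} {h0 : 0 < b} {h1 : b ≤ 1} {l : Lab (S.chg S.tr b h0)}
    (h : KLb (s.trn b h0 h1) (vis (S := S) s.Q) 0 l) : s.DMc 0 (untL l) := by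
  intro i
  rcases i with _ | i
  · have h2 : Nul (S.chg S.tr b h0) fun k => (l k).leak (fc (F := (S.chg S.tr b h0).F k) (vis (S := S) s.Q k)) := h.1 none
    exact nul_trn.mp h2
  · exact nul_win_trn (h.1 (some i))

/-- ROW FULB, forms over a deep visible label of a truncation -/
theorem fulb_form {A : MCl N} (hA : OkA N A) (hs : STO N (Cv A v))
    (hD : ∀ (r : ℕ) (T : Sp) (t : MSys T N (lin g) (Fin r)), t.vol D 0 ≤ volO t 0) {r : ℕ}
    {s : MSys S N (lin g) (Fin r)} (h : Cv A v S g r s) (hL : Lt s) {b : ℝ} {h0 : 0 < b} {h1 : b ≤ 1}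
    {l : Lab (S.chg S.tr b h0)} (hl : KLb (s.trn b h0 h1) (vis (S := S) s.Q) 0 l) :
    ∃ x : ∀ k, FD ((S.chg S.tr b h0).F k) (Mon N D), KAd (s.trn b h0 h1) (vis (S := S) s.Q) D 0 x ∧
      vol (s.trn b h0 h1).Q D x ≤ H (up1 l ((s.trn b h0 h1).Q.dg 1)) := by
  have hP : Pt (s.trn b h0 h1) (vis (S := S) s.Q) := by
    filter_upwards [hL] with k hk ω ω' a b' c d
    exact hk ω ω' a b' c.2 d
  have hw : ∀ i, Nul (S.chg S.tr b h0) fun k => (l k).leak (((s.trn b h0 h1).lf i).win 0 k) := fun i => hl.1 (some i)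
  exact deep_form hP hA.add (Pool.Agent.Helper55.INV.inv_trn h.2 h0 h1) hs hD l hw hl.2
    (enM_of hA.add (ovl_trn_mem hA h.1 (dmc_untL hl) hw))

/-- ROW FULB: `D₁` depends on `g` only -/
theorem fulb {A : MCl N} (hA : OkA N A) (hst : ∀ m, m < N → STu m) (hs : STO N (Cv A v)) (g : ℕ) :
    ∃ D₁ : ℕ, ∀ D, D₁ ≤ D → ∀ (S : Sp) (r : ℕ) (s : MSys S N (lin g) (Fin r)), Cv A v S g r s → Lt s →
      ∀ (b : ℝ) (h0 : 0 < b) (h1 : b ≤ 1) (x : ∀ k, FD ((S.chg S.tr b h0).F k) (Mon N D)),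
        KOp (s.trn b h0 h1) (vis (S := S) s.Q) D 0 x → ∀ l : Lab (S.chg S.tr b h0), KLb (s.trn b h0 h1) (vis (S := S) s.Q) 0 l →
          vol (s.trn b h0 h1).Q D x ≤ H (up1 l ((s.trn b h0 h1).Q.dg 1)) := by
  obtain ⟨D₁, hD⟩ := dgru_all N hst g
  refine ⟨D₁, fun D hD' S r s h hL b h0 h1 x hx l hl => ?_⟩
  obtain ⟨y, hy, h2⟩ := fulb_form hA hs (fun r S s => hD D hD' r S s) h hL hl
  exact (Pool.Agent.Helper7.RD.optK_vol_le hx hy).trans h2

/-- the volumes of all degrees -/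
theorem fulb_volKO {A : MCl N} (hA : OkA N A) (hst : ∀ m, m < N → STu m) (hs : STO N (Cv A v)) {r : ℕ}
    {s : MSys S N (lin g) (Fin r)} (h : Cv A v S g r s) (hL : Lt s) (b : ℝ) (h0 : 0 < b) (h1 : b ≤ 1) :
    volKO (s.trn b h0 h1) (vis (S := S) s.Q) 0 ≤ HK (s.trn b h0 h1) (vis (S := S) s.Q) 0 := by
  obtain ⟨D₁, hD⟩ := dgru_all N hst g
  exact le_HK fun l hl => ⟨D₁, fulb_form hA hs (fun r S s => hD D₁ le_rfl r S s) h hL hl⟩

/-- leaks of a literal label in the truncated space -/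
theorem ofZ_leak_trn {s : MSys S M E ι} (R W : Rsl S) {b : ℝ} {h0 : 0 < b} (h1 : b ≤ 1) (i : Option ι) (k : ℕ) :
    ((Lab.ofZ (S := S.chg S.tr b h0) W) k).leak (cndR (s.trn b h0 h1) R 0 i k) =
      ((Lab.ofZ W) k).leak (cndR s R 0 i k) := by
  refine (Lab.ofZ_leak (S := S.chg S.tr b h0) W (cndR (s.trn b h0 h1) R 0 i) k).trans ?_
  refine Eq.trans ?_ (Lab.ofZ_leak W (cndR s R 0 i) k).symm
  rcases i with _ | i
  · exact h_chg_top b h0 (W k) (R k)
  · have e1 : ((s.lf i).Y.chg S.tr b h0).cellv 0 k = (s.lf i).Y.cellv 0 k :=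
      (cellv_chg (s.lf i).Y b h0 0 k).trans (by rw [mul_zero])
    have e2 := h_chg_top b h0 (F := S.F k) (W k) ((s.lf i).La k ⊓ Setoid.ker ((s.lf i).Y.cellv 0 k))
    refine Eq.trans ?_ e2
    exact congrArg (fun f => h (fc (F := (S.F k).chg ⊤ b h0) (W k))
      (fc (F := (S.F k).chg ⊤ b h0) ((s.lf i).La k ⊓ Setoid.ker f))) e1

/-- literal K-labels of the system are K-labels of the truncations -/
theorem klb_trn {s : MSys S M E ι} {R W : Rsl S} (h : KLb s R 0 (Lab.ofZ W)) (b : ℝ) (h0 : 0 < b) (h1 : b ≤ 1) :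
    KLb (s.trn b h0 h1) R 0 (Lab.ofZ (S := S.chg S.tr b h0) W) := by
  refine ⟨fun i => ?_, ?_⟩
  · apply nul_trn.mpr
    have e3 : (fun k => ((Lab.ofZ (S := S.chg S.tr b h0) W) k).leak (cndR (s.trn b h0 h1) R 0 i k)) =
        fun k => ((Lab.ofZ W) k).leak (cndR s R 0 i k) := funext fun k => ofZ_leak_trn R W h1 i k
    rw [e3]
    exact h.1 i
  · filter_upwards [h.2] with k hk
    have h2 := ofZ_leak_trn (s := s) (h0 := h0) R W h1 none k
    exact h2.trans hk

/-- ROW FULB for literal labels of the system -/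
theorem fulb_lit {A : MCl N} (hA : OkA N A) (hst : ∀ m, m < N → STu m) (hs : STO N (Cv A v)) (g : ℕ) :
    ∃ D₁ : ℕ, ∀ D, D₁ ≤ D → ∀ (S : Sp) (r : ℕ) (s : MSys S N (lin g) (Fin r)), Cv A v S g r s → Lt s →
      ∀ W : Rsl S, KLb s (vis s.Q) 0 (Lab.ofZ W) → ∀ (b : ℝ) (h0 : 0 < b) (h1 : b ≤ 1)
        (x : ∀ k, FD ((S.chg S.tr b h0).F k) (Mon N D)), KOp (s.trn b h0 h1) (vis (S := S) s.Q) D 0 x →
          vol (s.trn b h0 h1).Q D x ≤
            H (up1 (Lab.ofZ (S := S.chg S.tr b h0) W) ((s.trn b h0 h1).Q.dg 1)) := by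
  obtain ⟨D₁, hD⟩ := fulb hA hst hs g
  exact ⟨D₁, fun D hD' S r s h hL W hW b h0 h1 x hx => hD D hD' S r s h hL b h0 h1 x hx _ (klb_trn hW b h0 h1)⟩

end

end Pool.Agent.Helper3.NJ
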